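import Mathlib
import Pool.Agent.H32.Maz

open Set Filter Topology
open Cardinal hiding univ

namespace Pool.Agent.Results.MP_8697f8_lc.KatetovDiffer

def IsIdeal (I : Set (Set ℕ)) : Prop :=
  (∀ a ∈ I, ∀ b ⊆ a, b ∈ I) ∧ (∀ a ∈ I, ∀ b ∈ I, a ∪ b ∈ I) ∧ univ ∉ I ∧
    ∀ a : Set ℕ, a.Finite → a ∈ I

/-- disjoint sum, moved to `ℕ` by `(0, n) ↦ 2 n`, `(1, n) ↦ 2 n + 1` -/
def osum (J0 J1 : Set (Set ℕ)) : Set (Set ℕ) :=
  {A | {n | 2 * n ∈ A} ∈ J0 ∧ {n | 2 * n + 1 ∈ A} ∈ J1}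

def KLe (A J : Set (Set ℕ)) : Prop := ∃ f : ℕ → ℕ, ∀ a ∈ A, f ⁻¹' a ∈ J

def Gen (A : Set (Set ℕ)) : Prop := ∀ F ⊆ A, F.Finite → ¬ (⋃₀ F)ᶜ.Finite

noncomputable def pK (I J : Set (Set ℕ)) : WithTop Cardinal :=
  sInf {c | ∃ A ⊆ I, ¬ KLe A J ∧ c = (#A : Cardinal)}

noncomputable def pKstar (J : Set (Set ℕ)) : WithTop Cardinal :=
  sInf {c | ∃ A, Gen A ∧ ¬ KLe A J ∧ c = (#A : Cardinal)}

/-- `non(M) < cov(M) = 𝔠 = 2 ^ non(M)`, as in the Cohen model -/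
def CohenHyp : Prop :=
  (∃ Y : Set (ℕ → ℕ), ¬ IsMeagre Y ∧ #Y < 𝔠 ∧ 2 ^ #Y ≤ 𝔠) ∧
    ∀ D : Set (Set (ℕ → ℕ)), #D < 𝔠 → (∀ X ∈ D, IsMeagre X) → ⋃₀ D ≠ univ

def pull (π : ℕ → ℕ) (J : Set (Set ℕ)) : Set (Set ℕ) := {X | π '' X ∈ J}

def p0 (n : ℕ) : ℕ := n.unpair.1

def p1 (n : ℕ) : ℕ := n.unpair.2

lemma pull_ideal {π : ℕ → ℕ} (hπ : Function.Surjective π) {J : Set (Set ℕ)} (h : IsIdeal J) :
    IsIdeal (pull π J) :=
  ⟨fun _ ha _ hb => h.1 _ ha _ (image_mono hb), fun a ha b hb => by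
    simpa only [pull, mem_ofPred_eq, image_union] using h.2.1 _ ha _ hb,
    fun e => h.2.2.1 (by simpa only [pull, mem_ofPred_eq, image_univ, hπ.range_eq] using e),
    fun _ ha => h.2.2.2 _ (ha.image _)⟩

lemma s0 : Function.Surjective p0 := fun n => ⟨Nat.pair n 0, by simp [p0]⟩

lemma s1 : Function.Surjective p1 := fun n => ⟨Nat.pair 0 n, by simp [p1]⟩

lemma kle_sum {A J : Set (Set ℕ)} (h : IsIdeal J) (hA : KLe A J) :
    KLe A (osum (pull p0 J) (pull p1 J)) := by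
  obtain ⟨f, hf⟩ := hA
  refine ⟨fun n => if n % 2 = 0 then f (p0 (n / 2)) else f (p1 (n / 2)), fun a ha => ⟨?_, ?_⟩⟩
  · refine h.1 _ (hf a ha) _ ?_
    rintro _ ⟨n, hn, rfl⟩
    simpa using hn
  · refine h.1 _ (hf a ha) _ ?_
    rintro _ ⟨n, hn, rfl⟩
    have e : (2 * n + 1) / 2 = n := by omega
    simpa [e] using hn

lemma meagre {D : Set (ℕ → ℕ)} (h1 : IsClosed D) (h2 : ∀ (f : ℕ → ℕ) N, ∃ g ∉ D, ∀ i < N, g i = f i) :
    IsMeagre D := by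
  refine IsNowhereDense.isMeagre (h1.isNowhereDense_iff.2 (eq_empty_of_forall_notMem fun f hf => ?_))
  choose g g1 g2 using h2 f
  have : Tendsto g atTop (𝓝 f) := tendsto_pi_nhds.2 fun i => tendsto_const_nhds.congr'
    ((eventually_gt_atTop i).mono fun N hN => (g2 N i hN).symm)
  obtain ⟨N, hN⟩ := (this.eventually (mem_interior_iff_mem_nhds.1 hf)).exists
  exact g1 N hN

lemma avoid {b a : Set ℕ} (hb : bᶜ.Infinite) {c : ℕ} (hc : c ∉ a) (N : ℕ) :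
    IsMeagre {f : ℕ → ℕ | ∀ n, N ≤ n → n ∉ b → f n ∈ a} := by
  refine meagre ?_ fun f M => ?_
  · simp only [ofPred_forall]
    exact isClosed_iInter fun n => isClosed_iInter fun _ => isClosed_iInter fun _ =>
      (isClosed_discrete a).preimage (continuous_apply n)
  · obtain ⟨n, h1, h2⟩ := hb.exists_gt (M + N)
    refine ⟨Function.update f n c, fun h => hc ?_, fun i hi => Function.update_of_ne (by omega) _ _⟩
    simpa using h n (by omega) h1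

def maxI : Set (Set ℕ) := {a | aᶜ ∈ hyperfilter ℕ}

lemma maxI_ideal : IsIdeal maxI :=
  ⟨fun _ ha _ hb => mem_of_superset ha (compl_subset_compl.2 hb), fun a ha b hb => by
    simp only [maxI, mem_ofPred_eq, compl_union]
    exact inter_mem ha hb, by simp [maxI],
    fun _ ha => ha.compl_mem_hyperfilter⟩

lemma gen_of_sub {A J : Set (Set ℕ)} (h : IsIdeal J) (hA : A ⊆ J) : Gen A := fun F h1 h2 h3 => by
  have : ∀ F : Set (Set ℕ), F.Finite → F ⊆ J → ⋃₀ F ∈ J := fun F h2 => by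
    induction F, h2 using Set.Finite.induction_on with
    | empty => exact fun _ => h.2.2.2 _ (by simp)
    | @insert a F _ _ ih =>
      rw [sUnion_insert]
      exact fun e => h.2.1 _ (e (mem_insert _ _)) _ (ih ((subset_insert _ _).trans e))
  exact h.2.2.1 (by simpa using h.2.1 _ (this F h2 (h1.trans hA)) _ (h.2.2.2 _ h3))

lemma small_bad {Y : Set (ℕ → ℕ)} (hY : ¬ IsMeagre Y) : ∃ A ⊆ maxI, #A ≤ max #Y ℵ₀ ∧
    ∀ J, IsIdeal J → ¬ KLe A (pull p0 J ∩ pull p1 J) := by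
  classical
  let a : (ℕ → ℕ) → Set ℕ := fun y => if y ⁻¹' {0} ∈ maxI then y ⁻¹' {0} else y ⁻¹' {0}ᶜ
  refine ⟨a '' Y ∪ {b | b.Finite}, union_subset ?_ maxI_ideal.2.2.2, (mk_union_le _ _).trans
    (add_le_of_le (le_max_right _ _) (mk_image_le.trans (le_max_left _ _))
      (le_max_of_le_right Set.Countable.ofPred_finite.le_aleph0)), ?_⟩
  · rintro _ ⟨y, -, rfl⟩
    simp only [a]
    split_ifs with h
    · exact h
    · simpa [maxI] using Ultrafilter.compl_notMem_iff.1 h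
  rintro J hJ ⟨f, hf⟩
  let E : ℕ → Set ℕ := fun m => range fun n => f (Nat.pair n m)
  have hE : ∀ m, (E m)ᶜᶜ.Infinite := fun m h => by
    rw [compl_compl] at h
    exact hJ.2.2.1 (hJ.1 _ (hf _ (Or.inr h)).1 _ fun n _ => ⟨Nat.pair n m, ⟨n, rfl⟩, by simp [p0]⟩)
  have hM := isMeagre_iUnion fun m => (avoid (a := {0}) (c := 1) (hE m) (by simp) 0).union
    (avoid (a := {0}ᶜ) (c := 0) (hE m) (by simp) 0)
  obtain ⟨y, h1, h2⟩ := not_subset.1 fun h => hY (hM.mono h)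
  simp only [mem_iUnion, mem_union, mem_ofPred_eq, not_exists, not_or, not_forall] at h2
  refine hJ.2.2.1 (hJ.1 _ (hf _ (Or.inl ⟨y, h1, rfl⟩)).2 _ fun m _ => ?_)
  obtain ⟨⟨k, -, k1, k2⟩, l, -, l1, l2⟩ := h2 m
  obtain ⟨n, rfl⟩ := notMem_compl_iff.1 k1
  obtain ⟨n', rfl⟩ := notMem_compl_iff.1 l1
  by_cases h : y ⁻¹' {0} ∈ maxI
  · exact ⟨Nat.pair n' m, by simpa [a, h] using l2, by simp [p1]⟩
  · exact ⟨Nat.pair n m, by simpa [a, h] using k2, by simp [p1]⟩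

lemma fin_small {A : Set (Set ℕ)} (h : #A < 𝔠) : #{F | F ⊆ A ∧ F.Finite} < 𝔠 := by
  have : {F | F ⊆ A ∧ F.Finite} ⊆ range fun l : List A => Subtype.val '' {x | x ∈ l} :=
    fun F ⟨h1, h2⟩ => ⟨(h2.preimage Subtype.val_injective.injOn).toFinset.toList, by
      simp [h1]⟩
  exact ((mk_le_mk_of_subset this).trans (mk_range_le.trans (mk_list_le_max _))).trans_lt
    (max_lt aleph0_lt_continuum h)

lemma generic (H : ∀ D : Set (Set (ℕ → ℕ)), #D < 𝔠 → (∀ X ∈ D, IsMeagre X) → ⋃₀ D ≠ univ)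
    {A B : Set (Set ℕ)} (hA : Gen A) (hB : Gen B) (a1 : #A < 𝔠) (b1 : #B < 𝔠) :
    ∃ f : ℕ → ℕ, Gen (B ∪ (f ⁻¹' ·) '' A) := by
  let D : {F | F ⊆ B ∧ F.Finite} × {F | F ⊆ A ∧ F.Finite} × ℕ → Set (ℕ → ℕ) := fun t =>
    {f | ∀ n, t.2.2 ≤ n → n ∉ ⋃₀ t.1.1 → f n ∈ ⋃₀ t.2.1.1}
  obtain ⟨f, hf⟩ := (ne_univ_iff_exists_notMem _).1 (H (range D) (mk_range_le.trans_lt (by
    simp only [mk_prod, lift_id, mk_nat]
    exact mul_lt_of_lt aleph0_le_continuum (fin_small b1)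
      (mul_lt_of_lt aleph0_le_continuum (fin_small a1) aleph0_lt_continuum))) (by
    rintro _ ⟨⟨F, G, N⟩, rfl⟩
    obtain ⟨c, hc⟩ := Set.Infinite.nonempty (hA _ G.2.1 G.2.2)
    exact avoid (hB _ F.2.1 F.2.2) hc N))
  refine ⟨f, fun F h1 h2 h3 => ?_⟩
  obtain ⟨G, g1, g2, g3⟩ := exists_subset_image_finite_and.1 ⟨F \ B,
    (show F \ B ⊆ (f ⁻¹' ·) '' A from fun x hx => (h1 hx.1).resolve_left hx.2),
    h2.subset sdiff_subset, Subset.rfl (s := F \ B)⟩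
  obtain ⟨N, hN⟩ := h3.bddAbove
  refine hf ⟨_, ⟨(⟨F ∩ B, inter_subset_right, h2.inter_of_left _⟩, ⟨G, g1, g2⟩, N + 1), rfl⟩,
    fun n n1 n2 => ?_⟩
  have : n ∈ ⋃₀ F := by
    by_contra e
    have := hN e
    simp only at n1
    omega
  obtain ⟨x, x1, x2⟩ := this
  obtain ⟨g, y1, rfl⟩ := g3 ⟨x1, fun e => n2 ⟨x, ⟨x1, e⟩, x2⟩⟩
  exact ⟨g, y1, x2⟩

lemma univ_ideal (H : ∀ D : Set (Set (ℕ → ℕ)), #D < 𝔠 → (∀ X ∈ D, IsMeagre X) → ⋃₀ D ≠ univ)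
    {κ : Cardinal} (k0 : ℵ₀ ≤ κ) (k1 : κ < 𝔠) (k2 : 2 ^ κ ≤ 𝔠) :
    ∃ J, IsIdeal J ∧ ∀ A, Gen A → #A ≤ κ → KLe A J := by
  let T := {A : Set (Set ℕ) // #A ≤ κ}
  have hT : #T ≤ 𝔠 := by
    refine (mk_bounded_set_le _ κ).trans ?_
    rw [mk_set, mk_nat, two_power_aleph0, max_eq_left aleph0_le_continuum, ← two_power_aleph0,
      ← power_mul, mul_eq_right k0 k0 aleph0_ne_zero, two_power_aleph0]
    exact k2
  let Φ : Set (T × (ℕ → ℕ)) → Set (Set ℕ) := fun S => ⋃ z : S, (z.1.2 ⁻¹' ·) '' z.1.1.1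
  have Φm : ∀ S S', S ⊆ S' → Φ S ⊆ Φ S' := fun S S' h =>
    iUnion_subset fun z => subset_iUnion_of_subset ⟨z.1, h z.2⟩ Subset.rfl
  obtain ⟨S, h1, h2⟩ := Pool.Agent.H32.Maz.build hT id (fun S => Gen (Φ S))
    (fun t S => Gen t.1 → ∃ f, (t, f) ∈ S) (fun t S S' h a b => (a b).imp fun f k => h k)
    (fun c hc hg F f1 f2 => by
      rcases c.eq_empty_or_nonempty with rfl | hn
      · obtain rfl : F = ∅ := by simpa [Φ] using f1
        simpa using infinite_univ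
      obtain ⟨S, s1, s2⟩ := DirectedOn.exists_mem_subset_of_finset_subset_biUnion (f := Φ) hn
        (hc.mono fun a b => Φm a b) (s := f2.toFinset) (fun x hx => by
          obtain ⟨⟨z, S, a, b⟩, e⟩ := mem_iUnion.1 (f1 (by simpa using hx))
          exact mem_biUnion a (mem_iUnion.2 ⟨⟨z, b⟩, e⟩))
      exact hg S s1 F (by simpa using s2) f2)
    (fun S hg hs t => by
      by_cases ht : Gen t.1
      · rw [image_id] at hs
        obtain ⟨f, hf⟩ := generic H ht hg (t.2.trans_lt k1) ((mk_iUnion_le _).trans_lt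
          (mul_lt_of_lt aleph0_le_continuum hs ((ciSup_le' fun z : S =>
            mk_image_le.trans z.1.1.2).trans_lt k1)))
        refine ⟨insert (t, f) S, subset_insert _ _, (finite_singleton (t, f)).subset (by
          simp +contextual [subset_def]), fun F a => hf F (a.trans (iUnion_subset ?_)),
          fun _ => ⟨f, mem_insert _ _⟩⟩
        rintro ⟨z, rfl | e⟩
        exacts [subset_union_right, fun x hx => Or.inl (mem_iUnion.2 ⟨⟨z, e⟩, hx⟩)]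
      · exact ⟨S, Subset.rfl, by simp, hg, fun e => (ht e).elim⟩)
  refine ⟨{X | ∃ F ⊆ Φ S, F.Finite ∧ (X \ ⋃₀ F).Finite}, ⟨fun a ⟨F, a1, a2, a3⟩ b hb =>
    ⟨F, a1, a2, a3.subset (sdiff_subset_sdiff_left hb)⟩, fun a ⟨F, a1, a2, a3⟩ b ⟨G, b1, b2, b3⟩ =>
    ⟨F ∪ G, union_subset a1 b1, a2.union b2, (a3.union b3).subset ?_⟩, fun ⟨F, a1, a2, a3⟩ =>
    h1 F a1 a2 (by simpa [compl_eq_univ_sdiff] using a3), fun a ha =>
    ⟨∅, empty_subset _, finite_empty, by simpa using ha⟩⟩, fun A a1 a2 => ?_⟩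
  · rw [sUnion_union]
    rintro x ⟨x1 | x1, x2⟩
    exacts [Or.inl ⟨x1, fun e => x2 (Or.inl e)⟩, Or.inr ⟨x1, fun e => x2 (Or.inr e)⟩]
  · obtain ⟨f, hf⟩ := h2 ⟨A, a2⟩ a1
    exact ⟨f, fun a ha => ⟨{f ⁻¹' a}, singleton_subset_iff.2 (mem_iUnion.2 ⟨⟨_, hf⟩, a, ha, rfl⟩),
      finite_singleton _, by simp⟩⟩

theorem result :
    (∃ I J0 J1, IsIdeal I ∧ IsIdeal J0 ∧ IsIdeal J1 ∧ pK I (J0 ∩ J1) < pK I (osum J0 J1)) ∧
    (CohenHyp → ∃ J0 J1, IsIdeal J0 ∧ IsIdeal J1 ∧ pKstar (J0 ∩ J1) < pKstar (osum J0 J1)) := by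
  constructor
  · obtain ⟨A, a1, -, a3⟩ := small_bad (Y := univ) (not_isMeagre_of_isOpen isOpen_univ univ_nonempty)
    refine ⟨maxI, _, _, maxI_ideal, pull_ideal s0 maxI_ideal, pull_ideal s1 maxI_ideal,
      lt_of_le_of_lt (sInf_le ⟨A, a1, a3 _ maxI_ideal, rfl⟩) (lt_of_lt_of_le
        (WithTop.coe_lt_top _) (le_sInf ?_))⟩
    rintro _ ⟨B, b1, b2, rfl⟩
    exact (b2 (kle_sum maxI_ideal ⟨id, b1⟩)).elim
  rintro ⟨⟨Y, y1, y2, y3⟩, H⟩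
  obtain ⟨A, a1, a2, a3⟩ := small_bad y1
  obtain ⟨J, j1, j2⟩ := univ_ideal H (le_max_right #Y ℵ₀) (max_lt y2 aleph0_lt_continuum)
    (by rcases max_cases #Y ℵ₀ with ⟨e, -⟩ | ⟨e, -⟩ <;> simp [e, y3])
  refine ⟨_, _, pull_ideal s0 j1, pull_ideal s1 j1, lt_of_le_of_lt
    (sInf_le ⟨A, gen_of_sub maxI_ideal a1, a3 _ j1, rfl⟩) (lt_of_lt_of_le
      (WithTop.coe_lt_coe.2 (a2.trans_lt (Order.lt_succ _))) (le_sInf ?_))⟩
  rintro _ ⟨B, b1, b2, rfl⟩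
  exact WithTop.coe_le_coe.2 (Order.succ_le_of_lt (not_le.1 fun e => b2 (kle_sum j1 (j2 B b1 e))))

end Pool.Agent.Results.MP_8697f8_lc.KatetovDiffer
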